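import Pool.Agent.W784.RR.DefsA

/-!
# The Chebyshev condition from a Riesz measure
-/

set_option autoImplicit false
open MeasureTheory Set Filter Topology Polynomial
open scoped ENNReal NNReal

namespace Pool.Agent.W305.RR

open Pool.Agent.W784.RR

theorem PA6 : Pool.Agent.W784.RR.PA6 := by
  intro K q ν hK hq hfin hsupp hne hpot p hp
  by_contra hcon
  push Not at hcon
  set m := p.natDegree with hm
  set C := (ν univ).toReal with hC
  have hCpos : 0 < C := ENNReal.toReal_pos hne (measure_ne_top ν _)
  have hνK : ν K ≠ 0 := by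
    intro h0
    apply hne
    rw [← nonpos_iff_eq_zero]
    calc ν univ = ν (K ∪ Kᶜ) := by rw [union_compl_self]
      _ ≤ ν K + ν Kᶜ := measure_union_le _ _
      _ = 0 := by rw [h0, hsupp, add_zero]
  have hKne : K.Nonempty := by
    by_contra h
    rw [not_nonempty_iff_eq_empty] at h
    rw [h] at hνK
    simp at hνK
  rcases Nat.eq_zero_or_pos m with hm0 | hmpos
  · obtain ⟨z, hz⟩ := hKne
    have h1 := hcon z hz
    have hp1 : p = 1 := hp.natDegree_eq_zero.1 hm0
    rw [hm0, hp1] at h1
    simp at h1
  · -- roots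
    set L := p.roots.toList with hL
    have hLlen : L.length = m := by
      rw [hL, Multiset.length_toList]
      exact (splits_iff_card_roots.1 (IsAlgClosed.splits p))
    have hpL : p = (L.map (fun w => X - Polynomial.C w)).prod := by
      conv_lhs => rw [← (prod_multiset_X_sub_C_of_monic_of_roots_card_eq hp
        (splits_iff_card_roots.1 (IsAlgClosed.splits p)))]
      rw [← Multiset.coe_toList p.roots]
      simp [hL]
    have hev : ∀ z : ℂ, ENNReal.ofReal ‖p.eval z‖ =
        ∏ i : Fin L.length, ENNReal.ofReal (dist (L.get i) z) := by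
      intro z
      have e1 : p.eval z = ∏ i : Fin L.length, (z - L.get i) := by
        conv_lhs => rw [hpL]
        rw [Polynomial.eval_list_prod, List.map_map]
        rw [← List.prod_ofFn]
        congr 1
        have : L = List.ofFn L.get := (List.ofFn_get L).symm
        conv_lhs => rw [this]
        rw [List.map_ofFn]
        congr 1
        funext i
        simp
      rw [e1, norm_prod, ENNReal.ofReal_prod_of_nonneg (fun i _ => norm_nonneg _)]
      refine Finset.prod_congr rfl fun i _ => ?_
      rw [dist_comm, dist_eq_norm]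
    have hmR : (0 : ℝ) < m := by exact_mod_cast hmpos
    have hmeas : ∀ w : ℂ, Measurable (fun z : ℂ => (ENNReal.ofReal (dist w z)) ^ (-q)) := by
      intro w
      fun_prop
    have hold := ENNReal.lintegral_prod_norm_pow_le (μ := ν) (Finset.univ : Finset (Fin L.length))
      (f := fun i z => (ENNReal.ofReal (dist (L.get i) z)) ^ (-q))
      (fun i _ => (hmeas _).aemeasurable) (p := fun _ => 1 / (m : ℝ))
      (by
        rw [Finset.sum_const, Finset.card_univ, Fintype.card_fin, hLlen, nsmul_eq_mul]
        field_simp) (fun i _ => by positivity)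
    have hrhs : ∏ i : Fin L.length, (∫⁻ z, (ENNReal.ofReal (dist (L.get i) z)) ^ (-q) ∂ν) ^
        (1 / (m : ℝ)) ≤ 1 := by
      refine Finset.prod_le_one' fun i _ => ?_
      exact ENNReal.rpow_le_one (hpot _) (by positivity)
    have hint : ∀ z : ℂ, ∏ i : Fin L.length,
        ((ENNReal.ofReal (dist (L.get i) z)) ^ (-q)) ^ (1 / (m : ℝ)) =
        (ENNReal.ofReal ‖p.eval z‖) ^ (-q / m) := by
      intro z
      rw [hev z, ← ENNReal.prod_rpow_of_ne_top (fun i _ => ENNReal.ofReal_ne_top)]
      refine Finset.prod_congr rfl fun i _ => ?_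
      rw [← ENNReal.rpow_mul]
      congr 1
      ring
    have hstrict : ∀ᵐ z ∂ν, (ENNReal.ofReal C)⁻¹ < (ENNReal.ofReal ‖p.eval z‖) ^ (-q / (m : ℝ)) := by
      have hK' : ∀ᵐ z ∂ν, z ∈ K := by
        rw [ae_iff]
        exact hsupp
      filter_upwards [hK'] with z hz
      have h1 := hcon z hz
      have e1 : (ENNReal.ofReal C)⁻¹ = (ENNReal.ofReal ((C ^ (1 / q)) ^ m)) ^ (-q / (m : ℝ)) := by
        rw [ENNReal.ofReal_rpow_of_pos (by positivity), ← ENNReal.ofReal_inv_of_pos hCpos]
        congr 1
        rw [← Real.rpow_natCast, ← Real.rpow_mul hCpos.le, ← Real.rpow_mul hCpos.le]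
        have : 1 / q * (m : ℝ) * (-q / m) = -1 := by
          field_simp
        rw [this, Real.rpow_neg_one]
      rw [e1]
      have e2 : -q / (m : ℝ) = -(q / m) := by ring
      rw [e2, ENNReal.rpow_neg, ENNReal.rpow_neg, ENNReal.inv_lt_inv]
      exact ENNReal.rpow_lt_rpow ((ENNReal.ofReal_lt_ofReal_iff (by positivity)).2 h1)
        (by positivity)
    have hν0 : ν ≠ 0 := by
      intro h
      rw [h] at hne
      simp at hne
    have hconst : ∫⁻ _, (ENNReal.ofReal C)⁻¹ ∂ν = 1 := by
      rw [lintegral_const, hC, ENNReal.ofReal_toReal (measure_ne_top ν _)]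
      exact ENNReal.inv_mul_cancel hne (measure_ne_top ν _)
    have hlt := lintegral_strict_mono (μ := ν) (f := fun _ => (ENNReal.ofReal C)⁻¹)
      (g := fun z => (ENNReal.ofReal ‖p.eval z‖) ^ (-q / (m : ℝ))) hν0
      (by
        have : Measurable (fun z => (ENNReal.ofReal ‖p.eval z‖) ^ (-q / (m : ℝ))) := by
          have : Continuous (fun z : ℂ => p.eval z) := p.continuous
          fun_prop
        exact this.aemeasurable) (by rw [hconst]; exact ENNReal.one_ne_top) hstrict
    rw [hconst] at hlt
    simp only [hint] at hold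
    exact absurd (lt_of_lt_of_le hlt (hold.trans hrhs)) (lt_irrefl _)

end Pool.Agent.W305.RR
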