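import Pool.Agent.W784.RR.Defs

/-!
# The linear inequality from the test inequality
-/

set_option autoImplicit false
open MeasureTheory Set Filter Topology
open scoped ENNReal NNReal

namespace Pool.Agent.W305.RR

open Pool.Agent.Helper88.RB Pool.Agent.W784.RR

namespace Lin

/-- `Ec` extended to the negative numbers -/
noncomputable def EM (n : ℕ) (q t : ℝ) : ℝ := Ec n q (max t 0)

theorem EM_of_nonneg {n : ℕ} {q t : ℝ} (ht : 0 ≤ t) : EM n q t = Ec n q t := by
  unfold EM
  rw [max_eq_left ht]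

section
variable {n : ℕ} {q : ℝ} (hcalc : PCalc) (hq : 0 < q) (hqn : q < n)
include hcalc hq hqn

theorem EM_cont : Continuous (EM n q) := by
  have h := (hcalc n q hq hqn).2.2.2.2.1
  exact h.comp_continuous (by fun_prop) (fun t => mem_Ici.2 (le_max_right _ _))

theorem EM_bd (t : ℝ) : 0 ≤ EM n q t ∧ EM n q t ≤ 1 :=
  (hcalc n q hq hqn).2.2.2.2.2.2.1 _ (le_max_right _ _)

theorem Gc_eq {κ : ℝ} (h0 : 0 ≤ κ) (h1 : κ ≤ 1) :
    Gc n q κ = (q * Ec n q κ - Nc n q κ) / n := by
  have h := (hcalc n q hq hqn).2.2.2.2.2.2.2.2.2.1 κ ⟨h0, h1⟩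
  have hn : (0 : ℝ) < n := hq.trans hqn
  rw [← h]
  field_simp

omit hcalc in
theorem Nc_cont : ContinuousOn (Nc n q) (Icc 0 1) := by
  unfold Nc
  refine ContinuousOn.div_const ?_ _
  refine ContinuousOn.mul ?_ ?_
  · exact (Real.continuous_rpow_const hq.le).continuousOn
  · refine Continuous.continuousOn ?_
    have : 0 ≤ ((n : ℝ) - q) / 2 := by linarith
    exact (Real.continuous_rpow_const this).comp (by fun_prop)

theorem Gc_cont : ContinuousOn (Gc n q) (Icc 0 1) := by
  have h := (hcalc n q hq hqn).2.2.2.2.1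
  have h2 : ContinuousOn (fun κ => (q * Ec n q κ - Nc n q κ) / n) (Icc 0 1) := by
    refine ContinuousOn.div_const ?_ _
    exact ((h.mono Icc_subset_Ici_self).const_mul q |>.sub (Nc_cont hq hqn))
  exact h2.congr fun κ hκ => Gc_eq hcalc hq hqn hκ.1 hκ.2

/-- integration by parts -/
theorem intE {κ : ℝ} (h0 : 0 ≤ κ) (h1 : κ ≤ 1) :
    ∫ l in (0:ℝ)..κ, 2 * l * EM n q l = κ ^ 2 * Ec n q κ - Gc n q κ := by
  obtain ⟨hB, hI, hE0, hE1, hEc, hmono, hbd, hdE, hdG, hid, hlim⟩ := hcalc n q hq hqn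
  have hc := EM_cont (n := n) hcalc hq hqn
  have hfc : ContinuousOn (fun κ => κ ^ 2 * Ec n q κ - Gc n q κ) (Icc 0 κ) := by
    have hs : Icc 0 κ ⊆ Icc (0:ℝ) 1 := Icc_subset_Icc_right h1
    refine ContinuousOn.sub ?_ ((Gc_cont hcalc hq hqn).mono hs)
    exact ContinuousOn.mul (by fun_prop) (hEc.mono Icc_subset_Ici_self)
  have key := intervalIntegral.integral_eq_sub_of_hasDerivAt_of_le (a := 0) (b := κ)
    (f := fun κ => κ ^ 2 * Ec n q κ - Gc n q κ) (f' := fun l => 2 * l * EM n q l) h0 hfc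
    (by
      intro l hl
      have hl' : l ∈ Ioo (0:ℝ) 1 := ⟨hl.1, hl.2.trans_le h1⟩
      have h3 : HasDerivAt (fun κ => κ ^ 2 * Ec n q κ - Gc n q κ)
          (((2 : ℕ) : ℝ) * l ^ (2 - 1) * Ec n q l + l ^ 2 * (wt n q l / Bc n q) -
            l ^ 2 * wt n q l / Bc n q) l :=
        ((hasDerivAt_pow 2 l).mul (hdE l hl')).sub (hdG l hl')
      refine h3.congr_deriv ?_
      show _ = 2 * l * EM n q l
      rw [EM_of_nonneg hl.1.le]
      push_cast
      ring)
    (Continuous.intervalIntegrable (by fun_prop) _ _)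
  rw [key]
  have hG0 : Gc n q 0 = 0 := by
    unfold Gc
    simp
  simp [hG0]

theorem Gc_one : Gc n q 1 = q / n := by
  rw [Gc_eq hcalc hq hqn zero_le_one le_rfl]
  have hE1 := (hcalc n q hq hqn).2.2.2.1 1 le_rfl
  have hN : Nc n q 1 = 0 := by
    unfold Nc
    have : ((n : ℝ) - q) / 2 ≠ 0 := by
      have : 0 < ((n : ℝ) - q) / 2 := by linarith
      exact this.ne'
    simp [Real.zero_rpow this]
  rw [hE1, hN]
  ring

theorem intE1 : ∫ v in (0:ℝ)..1, 2 * v * (EM n q v - 1) = -(q / n) := by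
  have hc := EM_cont (n := n) hcalc hq hqn
  have e1 : ∀ v : ℝ, 2 * v * (EM n q v - 1) = 2 * v * EM n q v - 2 * v := fun v => by ring
  simp only [e1]
  rw [intervalIntegral.integral_sub (Continuous.intervalIntegrable (by fun_prop) _ _)
    (Continuous.intervalIntegrable (by fun_prop) _ _), intE hcalc hq hqn zero_le_one le_rfl,
    Gc_one hcalc hq hqn, (hcalc n q hq hqn).2.2.2.1 1 le_rfl]
  have : ∫ v in (0:ℝ)..1, 2 * v = 1 := by
    rw [intervalIntegral.integral_const_mul, integral_id]
    norm_num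
  rw [this]
  ring

/-- lower bound of the inner integral -/
theorem lowE {m κ : ℝ} (hm : 0 < m) (h0 : 0 < κ) :
    κ ^ 2 - q / n * m ^ 2 ≤ ∫ l in (0:ℝ)..κ, 2 * l * EM n q (l / m) := by
  have hc := EM_cont (n := n) hcalc hq hqn
  set g : ℝ → ℝ := fun l => 2 * l * (EM n q (l / m) - 1) with hg
  have hgc : Continuous g := by fun_prop
  have gi : ∀ a b : ℝ, IntervalIntegrable g volume a b := fun a b => hgc.intervalIntegrable a b
  -- scaling
  have s1 : ∫ l in (0:ℝ)..m, g l = -(q / n) * m ^ 2 := by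
    have e1 := intervalIntegral.integral_comp_div (a := 0) (b := m)
      (f := fun v => 2 * (m * v) * (EM n q v - 1)) hm.ne'
    have e2 : ∀ l : ℝ, 2 * (m * (l / m)) * (EM n q (l / m) - 1) = g l := by
      intro l
      rw [hg]
      simp only
      rw [mul_div_cancel₀ _ hm.ne']
    simp only [e2] at e1
    rw [e1, zero_div, div_self hm.ne', smul_eq_mul]
    have e3 : ∀ v : ℝ, 2 * (m * v) * (EM n q v - 1) = m * (2 * v * (EM n q v - 1)) :=
      fun v => by ring
    simp only [e3]
    rw [intervalIntegral.integral_const_mul, intE1 hcalc hq hqn]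
    ring
  -- beyond m
  have s2 : ∫ l in m..(max κ m), g l = 0 := by
    have : ∫ l in m..(max κ m), g l = ∫ l in m..(max κ m), (0:ℝ) := by
      refine intervalIntegral.integral_congr fun l hl => ?_
      rw [uIcc_of_le (le_max_right _ _)] at hl
      have h1 : 1 ≤ l / m := by
        rw [one_le_div hm]
        exact hl.1
      have h2 : EM n q (l / m) = 1 := by
        rw [EM_of_nonneg (by linarith)]
        exact (hcalc n q hq hqn).2.2.2.1 _ h1
      simp [hg, h2]
    rw [this]
    simp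
  have s3 : ∫ l in (0:ℝ)..(max κ m), g l = -(q / n) * m ^ 2 := by
    rw [← intervalIntegral.integral_add_adjacent_intervals (gi 0 m) (gi m _), s1, s2, add_zero]
  have s4 : ∫ l in κ..(max κ m), g l ≤ 0 := by
    have h1 : 0 ≤ ∫ l in κ..(max κ m), -g l := by
      refine intervalIntegral.integral_nonneg (le_max_left _ _) ?_
      intro l hl
      have h2 := (EM_bd hcalc hq hqn (l / m)).2
      have h3 : 0 ≤ l := h0.le.trans hl.1
      simp only [hg]
      nlinarith
    rw [intervalIntegral.integral_neg] at h1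
    linarith
  have s5 : ∫ l in (0:ℝ)..κ, g l = -(q / n) * m ^ 2 - ∫ l in κ..(max κ m), g l := by
    have := intervalIntegral.integral_add_adjacent_intervals (gi 0 κ) (gi κ (max κ m))
    linarith
  have s6 : ∫ l in (0:ℝ)..κ, 2 * l * EM n q (l / m) = (∫ l in (0:ℝ)..κ, g l) + κ ^ 2 := by
    have e1 : ∀ l : ℝ, 2 * l * EM n q (l / m) = g l + 2 * l := fun l => by
      rw [hg]
      ring
    simp only [e1]
    rw [intervalIntegral.integral_add (gi _ _) (Continuous.intervalIntegrable (by fun_prop) _ _)]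
    congr 1
    rw [intervalIntegral.integral_const_mul, integral_id]
    ring
  rw [s6, s5]
  linarith

end

end Lin

open Lin in
theorem PLin : PCalc → PTestP → Pool.Agent.W784.RR.PLin := by
  intro hcalc htest n q hn1 hq hnq hqn S ν hS hfin hsupp hpot x c hxc y hy κ hκ hκE
  have hEc := EM_cont (n := n) (q := q) hcalc hq hqn
  have hnR : (0 : ℝ) < n := hq.trans hqn
  -- notation
  set ρ2 : E n → ℝ := fun z => ‖z - x‖ ^ 2 + y ^ 2 with hρ2
  have hρpos : ∀ z, 0 < ρ2 z := fun z => by
    have : 0 < y ^ 2 := by positivity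
    have h1 : 0 ≤ ‖z - x‖ ^ 2 := by positivity
    simp only [hρ2]
    linarith
  have hρc : Continuous ρ2 := by
    simp only [hρ2]
    fun_prop
  have hrpc : ∀ a : ℝ, Continuous (fun z => ρ2 z ^ a) := fun a =>
    hρc.rpow_const (fun z => Or.inl (hρpos z).ne')
  set P : E n → ℝ := fun z => ρ2 z ^ (-q / 2) with hP
  have hPc : Continuous P := hrpc _
  have hPpos : ∀ z, 0 < P z := fun z => Real.rpow_pos_of_pos (hρpos z) _
  -- no atom at c
  have hatom : ∀ᵐ z ∂ν, z ≠ c := by
    have h1 : ∫⁻ z, (ENNReal.ofReal (dist c z)) ^ (-q) ∂ν ≠ ∞ :=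
      ((hpot c).trans_lt ENNReal.one_lt_top).ne
    have h2 := ae_lt_top (μ := ν) (f := fun z => (ENNReal.ofReal (dist c z)) ^ (-q))
      (by fun_prop) h1
    filter_upwards [h2] with z hz hzc
    rw [hzc, dist_self, ENNReal.ofReal_zero, ENNReal.zero_rpow_of_neg (by linarith)] at hz
    exact absurd hz (lt_irrefl _)
  -- the double integral
  set F : E n → ℝ → ℝ := fun z l =>
    2 * l * (P z * EM n q (l * Real.sqrt (ρ2 z) / dist z c)) with hF
  have hFmeas : Measurable (Function.uncurry (fun (z : E n) (l : ℝ) => ENNReal.ofReal (F z l))) := by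
    have : Measurable (fun p : E n × ℝ => F p.1 p.2) := by
      simp only [hF]
      have h1 : Measurable (fun p : E n × ℝ => P p.1) := hPc.measurable.comp measurable_fst
      have h2 : Measurable (fun p : E n × ℝ => ρ2 p.1) := hρc.measurable.comp measurable_fst
      have h3 : Measurable (fun p : E n × ℝ => p.2 * Real.sqrt (ρ2 p.1) / dist p.1 c) :=
        (measurable_snd.mul h2.sqrt).div (measurable_fst.dist measurable_const)
      exact (measurable_const.mul measurable_snd).mul (h1.mul (hEc.measurable.comp h3))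
    exact this.ennreal_ofReal
  have hT : ∫⁻ z, (∫⁻ l in Ioo 0 κ, ENNReal.ofReal (F z l)) ∂ν ≤
      ENNReal.ofReal (κ ^ 2 * Ec n q κ - Gc n q κ) := by
    rw [lintegral_lintegral_swap hFmeas.aemeasurable]
    have h1 : ∀ l ∈ Ioo (0:ℝ) κ, ∫⁻ z, ENNReal.ofReal (F z l) ∂ν ≤
        ENNReal.ofReal (2 * l * EM n q l) := by
      intro l hl
      have hl0 : 0 < l := hl.1
      have e1 : ∀ z, ENNReal.ofReal (F z l) = ENNReal.ofReal (2 * l) *
          ENNReal.ofReal ((‖z - x‖ ^ 2 + y ^ 2) ^ (-q / 2) *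
            Ec n q (l * Real.sqrt (‖z - x‖ ^ 2 + y ^ 2) / dist z c)) := by
        intro z
        rw [← ENNReal.ofReal_mul (by positivity)]
        simp only [hF]
        rw [EM_of_nonneg (by positivity)]
      simp only [e1]
      rw [lintegral_const_mul' _ _ ENNReal.ofReal_ne_top, EM_of_nonneg hl0.le,
        ENNReal.ofReal_mul (by positivity : (0:ℝ) ≤ 2 * l)]
      gcongr
      exact htest n q hn1 hq hnq hqn S ν hS hfin hsupp hpot x c hxc y hy l hl0 (hl.2.trans hκ.2)
    calc ∫⁻ l in Ioo 0 κ, ∫⁻ z, ENNReal.ofReal (F z l) ∂ν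
        ≤ ∫⁻ l in Ioo 0 κ, ENNReal.ofReal (2 * l * EM n q l) :=
          setLIntegral_mono' measurableSet_Ioo h1
      _ = ENNReal.ofReal (∫ l in Ioo 0 κ, 2 * l * EM n q l) := by
          rw [← ofReal_integral_eq_lintegral_ofReal]
          · exact ((Continuous.intervalIntegrable (by fun_prop) 0 κ).1).mono_set Ioo_subset_Ioc_self
          · filter_upwards [self_mem_ae_restrict measurableSet_Ioo] with l hl
            have := (EM_bd hcalc hq hqn l).1
            have h3 : 0 < l := hl.1
            positivity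
      _ = ENNReal.ofReal (κ ^ 2 * Ec n q κ - Gc n q κ) := by
          rw [← integral_Ioc_eq_integral_Ioo, ← intervalIntegral.integral_of_le hκ.1.le,
            intE hcalc hq hqn hκ.1.le hκ.2.le]
  -- lower bound
  set g : E n → ℝ := fun z => κ ^ 2 * P z - q / n * (‖z - c‖ ^ 2 * ρ2 z ^ (-q / 2 - 1)) with hg
  have hlow : ∀ᵐ z ∂ν, ENNReal.ofReal (g z) ≤ ∫⁻ l in Ioo 0 κ, ENNReal.ofReal (F z l) := by
    filter_upwards [hatom] with z hz
    have hd : 0 < dist z c := dist_pos.2 hz
    have hs : 0 < Real.sqrt (ρ2 z) := Real.sqrt_pos.2 (hρpos z)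
    set m := dist z c / Real.sqrt (ρ2 z) with hm
    have hmpos : 0 < m := by positivity
    have e1 : ∀ l : ℝ, l * Real.sqrt (ρ2 z) / dist z c = l / m := by
      intro l
      rw [hm]
      field_simp
    have e2 : ∀ l, F z l = P z * (2 * l * EM n q (l / m)) := by
      intro l
      simp only [hF]
      rw [e1]
      ring
    have e3 : ∫⁻ l in Ioo 0 κ, ENNReal.ofReal (F z l) =
        ENNReal.ofReal (P z * ∫ l in (0:ℝ)..κ, 2 * l * EM n q (l / m)) := by
      rw [← intervalIntegral.integral_const_mul, intervalIntegral.integral_of_le hκ.1.le,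
        integral_Ioc_eq_integral_Ioo, ofReal_integral_eq_lintegral_ofReal]
      · simp only [e2]
      · exact ((Continuous.intervalIntegrable (by fun_prop) 0 κ).1).mono_set Ioo_subset_Ioc_self
      · filter_upwards [self_mem_ae_restrict measurableSet_Ioo] with l hl
        have h4 := (EM_bd hcalc hq hqn (l / m)).1
        have h3 : 0 < l := hl.1
        have h5 := hPpos z
        positivity
    rw [e3]
    apply ENNReal.ofReal_le_ofReal
    have h1 := lowE hcalc hq hqn hmpos hκ.1
    have h2 := mul_le_mul_of_nonneg_left h1 (hPpos z).le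
    refine le_trans (le_of_eq ?_) h2
    simp only [hg]
    have h5 : ρ2 z ^ (-q / 2 - 1) = P z / ρ2 z := by
      rw [Real.rpow_sub_one (hρpos z).ne']
    have h6 : m ^ 2 = ‖z - c‖ ^ 2 / ρ2 z := by
      rw [hm, div_pow, Real.sq_sqrt (hρpos z).le, dist_eq_norm]
    rw [h5, h6]
    ring
  have hgc : Continuous g := by
    simp only [hg]
    exact (continuous_const.mul hPc).sub (continuous_const.mul
      (((continuous_id.sub continuous_const).norm.pow 2).mul (hrpc _)))
  have hint : ∀ f : E n → ℝ, Continuous f → Integrable f ν := by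
    intro f hf
    have hr : ν.restrict S = ν := Measure.restrict_eq_self_of_ae_mem (by
      rw [ae_iff]
      exact hsupp)
    have := hf.continuousOn.integrableOn_compact (μ := ν) hS
    rwa [IntegrableOn, hr] at this
  have hgint := hint g hgc
  have hT2 : ∫ z, g z ∂ν ≤ κ ^ 2 * Ec n q κ - Gc n q κ := by
    have hT0 : 0 ≤ κ ^ 2 * Ec n q κ - Gc n q κ := by
      rw [← intE hcalc hq hqn hκ.1.le hκ.2.le]
      refine intervalIntegral.integral_nonneg hκ.1.le ?_
      intro l hl
      have := (EM_bd hcalc hq hqn l).1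
      have h3 : 0 ≤ l := hl.1
      positivity
    have h1 : ∫⁻ z, ENNReal.ofReal (g z) ∂ν ≤ ENNReal.ofReal (κ ^ 2 * Ec n q κ - Gc n q κ) :=
      (lintegral_mono_ae hlow).trans hT
    have h2 : ∫ z, g z ∂ν ≤ ∫ z, max (g z) 0 ∂ν :=
      integral_mono hgint (hgint.pos_part) (fun z => le_max_left _ _)
    refine h2.trans ?_
    rw [integral_eq_lintegral_of_nonneg_ae (f := fun z => max (g z) 0) (Eventually.of_forall fun z => le_max_right _ _)
      (hgint.pos_part).aestronglyMeasurable]
    have h3 : ∀ z, ENNReal.ofReal (max (g z) 0) = ENNReal.ofReal (g z) := by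
      intro z
      rw [ENNReal.ofReal_max]
      simp
    simp only [h3]
    exact ENNReal.toReal_le_of_le_ofReal hT0 h1
  have hsplit : ∫ z, g z ∂ν = κ ^ 2 * UR q ν x y -
      q / n * ∫ z, ‖z - c‖ ^ 2 * (‖x - z‖ ^ 2 + y ^ 2) ^ (-q / 2 - 1) ∂ν := by
    simp only [hg]
    rw [integral_sub, integral_const_mul, integral_const_mul]
    · unfold UR
      simp only [hP, hρ2, norm_sub_rev x]
    · exact hint _ (continuous_const.mul hPc)
    · exact hint _ (continuous_const.mul
        (((continuous_id.sub continuous_const).norm.pow 2).mul (hrpc _)))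
  rw [hsplit, ← hκE] at hT2
  have h7 : Gc n q κ ≤ q / n * ∫ z, ‖z - c‖ ^ 2 * (‖x - z‖ ^ 2 + y ^ 2) ^ (-q / 2 - 1) ∂ν := by
    linarith
  have h8 := mul_le_mul_of_nonneg_left h7 (show 0 ≤ (n : ℝ) / q by positivity)
  refine h8.trans (le_of_eq ?_)
  rw [← mul_assoc]
  have : (n : ℝ) / q * (q / n) = 1 := by field_simp
  rw [this, one_mul]

end Pool.Agent.W305.RR
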