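import Mathlib
import Pool.Agent.W757.RC.St4
import Pool.Agent.H790R3.RB.TLAM

/-! Task RQ-DCL (project RC of helper757): the marked configurations with given multipliers form a
compact set. -/

set_option autoImplicit false

open Topology Filter Metric Set MeasureTheory
open Pool.Agent.H790R3.RB
open Pool.Agent.W757.RC

namespace Pool.Agent.W305.RQDCL

/-- the denominator of the local coordinate -/
noncomputable def den {s : ℕ} (k : Option (Fin s)) (p : ℂ × ℂ) : ℂ :=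
  match k with
  | none => p.1
  | some _ => p.2

theorem den_smul_ch {s : ℕ} {X : Type} (b : Fin s → X → ℂ) (k : Option (Fin s)) (x : X)
    (a z : ℂ) : den k (a • ch b k x z) = a := by
  cases k <;> simp [den, ch]

theorem eq_den_smul {s : ℕ} {X : Type} (b : Fin s → X → ℂ) (k : Option (Fin s)) (x : X)
    (p : ℂ × ℂ) (h : den k p ≠ 0) : p = den k p • ch b k x (loc b k x p) := by
  cases k with
  | none =>
    have h' : p.1 ≠ 0 := h
    ext
    · simp [den, ch]
    · simp only [den, ch, loc, Prod.smul_snd, smul_eq_mul]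
      field_simp
  | some k =>
    have h' : p.2 ≠ 0 := h
    ext
    · simp only [den, ch, loc, Prod.smul_fst, smul_eq_mul]
      field_simp
      ring
    · simp [den, ch]

theorem den_cont {s : ℕ} (k : Option (Fin s)) : Continuous (den k) := by
  cases k with
  | none => exact continuous_fst
  | some k => exact continuous_snd

/-- iterates of a contraction -/
theorem contr_iter {d s : ℕ} (x : CV d) (β : Fin s → Unit → ℂ) (k : Option (Fin s)) (p : ℕ)
    (r c : ℝ) (hc0 : 0 ≤ c) (hc1 : c ≤ 1)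
    (h : ∀ z : ℂ, ‖z‖ < r → ∃ a z' : ℂ, a ≠ 0 ∧ ‖z'‖ ≤ c * ‖z‖ ∧
      (hF x)^[p] (ch β k () z) = a • ch β k () z') (N : ℕ) :
    ∀ z : ℂ, ‖z‖ < r → ∃ a z' : ℂ, a ≠ 0 ∧ ‖z'‖ ≤ c ^ N * ‖z‖ ∧
      (hF x)^[p * N] (ch β k () z) = a • ch β k () z' := by
  induction N with
  | zero =>
    intro z _
    exact ⟨1, z, one_ne_zero, by simp, by simp⟩
  | succ N ih =>
    intro z hz
    obtain ⟨a, z', ha, hz', e⟩ := h z hz
    have hz'' : ‖z'‖ < r := by
      refine lt_of_le_of_lt hz' (lt_of_le_of_lt ?_ hz)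
      nlinarith [norm_nonneg z]
    obtain ⟨a', w, ha', hw, e'⟩ := ih z' hz''
    refine ⟨a ^ (d ^ (p * N)) * a', w, mul_ne_zero (pow_ne_zero _ ha) ha', ?_, ?_⟩
    · calc ‖w‖ ≤ c ^ N * ‖z'‖ := hw
        _ ≤ c ^ N * (c * ‖z‖) := mul_le_mul_of_nonneg_left hz' (pow_nonneg hc0 _)
        _ = c ^ (N + 1) * ‖z‖ := by ring
    · have : p * (N + 1) = p * N + p := by ring
      rw [this, Function.iterate_add_apply, e, hF_iter_smul, e', smul_smul]

/-- a contraction has no other periodic points -/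
theorem no_per {d s : ℕ} (x : CV d) (β : Fin s → Unit → ℂ) (k : Option (Fin s)) (p : ℕ)
    (r c : ℝ) (hc0 : 0 ≤ c) (hc1 : c < 1)
    (h : ∀ z : ℂ, ‖z‖ < r → ∃ a z' : ℂ, a ≠ 0 ∧ ‖z'‖ ≤ c * ‖z‖ ∧
      (hF x)^[p] (ch β k () z) = a • ch β k () z') (N : ℕ) (hN : N ≠ 0) (z : ℂ) (hz : ‖z‖ < r)
    (hp : cr ((hF x)^[p * N] (ch β k () z)) (ch β k () z) = 0) : z = 0 := by
  obtain ⟨a, z', ha, hz', e⟩ := contr_iter x β k p r c hc0 hc1.le h N z hz
  rw [e, cr_smul_left] at hp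
  have h1 : cr (ch β k () z') (ch β k () z) = 0 := (mul_eq_zero.1 hp).resolve_left ha
  have h2 : z' = z := cr_ch β k () h1
  rw [h2] at hz'
  have h3 : c ^ N < 1 := pow_lt_one₀ hc0 hc1 hN
  by_contra h0
  have h4 : 0 < ‖z‖ := norm_pos_iff.2 h0
  nlinarith

theorem cyc_iter {d : ℕ} (x : CV d) (hx : ND x) (p N : ℕ) (u : ℂ × ℂ) (hu : u ≠ 0)
    (h : cr ((hF x)^[p] u) u = 0) : cr ((hF x)^[p * N] u) u = 0 := by
  obtain ⟨a, ha, e⟩ := (cr_eq_zero_iff (hx.iter_ne p hu) hu).1 h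
  induction N with
  | zero => simp [cr_self]
  | succ N ih =>
    have : p * (N + 1) = p * N + p := by ring
    rw [this, Function.iterate_add_apply, e, hF_iter_smul, cr_smul_left, ih, mul_zero]

section local_

variable {d n s : ℕ} (S₀ : BS d n)

/-- the orbit of a marked point -/
noncomputable def Gm (k : Option (Fin s)) (m : ℕ) (q : (Fin (n + s) → ℂ) × ℂ) : ℂ × ℂ :=
  (hF (S₀.co (xp q.1)))^[m] (ch (mp (bp q.1)) k () q.2)

/-- the orbit of a marked point in a local coordinate -/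
noncomputable def Hm (k k' : Option (Fin s)) (m : ℕ) (q : (Fin (n + s) → ℂ) × ℂ) : ℂ :=
  loc (mp (bp q.1)) k' () (Gm S₀ k m q)

/-- the domain of the local coordinate -/
def Om (k k' : Option (Fin s)) (m : ℕ) : Set ((Fin (n + s) → ℂ) × ℂ) :=
  {q | xp q.1 ∈ S₀.U} ∩ Gm S₀ k m ⁻¹' {p | den k' p ≠ 0}

theorem xp_diff : Differentiable ℂ (fun q : Fin (n + s) → ℂ => xp q) := by
  rw [differentiable_pi]
  intro i
  exact differentiable_apply _

theorem bp_diff (k : Fin s) : Differentiable ℂ (fun q : Fin (n + s) → ℂ => bp q k) :=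
  differentiable_apply _

theorem U_open : IsOpen {q : (Fin (n + s) → ℂ) × ℂ | xp q.1 ∈ S₀.U} :=
  isOpen_ball.preimage (xp_diff.continuous.comp continuous_fst)

theorem Gm_diff (k : Option (Fin s)) (m : ℕ) :
    DifferentiableOn ℂ (Gm S₀ k m) {q : (Fin (n + s) → ℂ) × ℂ | xp q.1 ∈ S₀.U} := by
  have hco : DifferentiableOn ℂ (fun q : (Fin (n + s) → ℂ) × ℂ => S₀.co (xp q.1))
      {q : (Fin (n + s) → ℂ) × ℂ | xp q.1 ∈ S₀.U} :=
    S₀.hco.comp (xp_diff.comp differentiable_fst).differentiableOn (fun q hq => hq)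
  have hch : Differentiable ℂ (fun q : (Fin (n + s) → ℂ) × ℂ => ch (mp (bp q.1)) k () q.2) := by
    cases k with
    | none => exact (differentiable_const (1 : ℂ)).prodMk differentiable_snd
    | some k =>
      exact (((bp_diff k).comp differentiable_fst).add differentiable_snd).prodMk
        (differentiable_const (1 : ℂ))
  exact (hF_iter_differentiable d m).comp_differentiableOn (hco.prodMk hch.differentiableOn)

theorem Om_open (k k' : Option (Fin s)) (m : ℕ) : IsOpen (Om S₀ k k' m) :=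
  (Gm_diff S₀ k m).continuousOn.isOpen_inter_preimage (U_open S₀)
    (isOpen_ne_fun (den_cont k') continuous_const)

theorem Hm_diff (k k' : Option (Fin s)) (m : ℕ) :
    DifferentiableOn ℂ (Hm S₀ k k' m) (Om S₀ k k' m) := by
  have hG : DifferentiableOn ℂ (Gm S₀ k m) (Om S₀ k k' m) :=
    (Gm_diff S₀ k m).mono inter_subset_left
  cases k' with
  | none =>
    have e : Hm S₀ k none m = fun q : (Fin (n + s) → ℂ) × ℂ =>
      (Gm S₀ k m q).2 * ((Gm S₀ k m q).1)⁻¹ := by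
      funext q
      rfl
    rw [e]
    refine hG.snd.mul (hG.fst.inv ?_)
    intro q hq
    exact hq.2
  | some k' =>
    have e : Hm S₀ k (some k') m = fun q : (Fin (n + s) → ℂ) × ℂ =>
      (Gm S₀ k m q).1 * ((Gm S₀ k m q).2)⁻¹ - bp q.1 k' := by
      funext q
      rfl
    rw [e]
    refine (hG.fst.mul (hG.snd.inv ?_)).sub
      ((bp_diff k').comp differentiable_fst).differentiableOn
    intro q hq
    exact hq.2

theorem mem_Om (k k' : Option (Fin s)) (m : ℕ) (q : (Fin (n + s) → ℂ) × ℂ) (hq : xp q.1 ∈ S₀.U)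
    (h : cr (Gm S₀ k m q) (ch (mp (bp q.1)) k' () 0) = 0) :
    q ∈ Om S₀ k k' m ∧ Hm S₀ k k' m q = 0 := by
  have h1 : Gm S₀ k m q ≠ 0 := (S₀.nd _ hq).iter_ne m (ch_ne_zero _ _ _ _)
  obtain ⟨a, ha, e⟩ := (cr_eq_zero_iff h1 (ch_ne_zero (mp (bp q.1)) k' () 0)).1 h
  refine ⟨⟨hq, ?_⟩, ?_⟩
  · show den k' (Gm S₀ k m q) ≠ 0
    rw [e, den_smul_ch]
    exact ha
  · unfold Hm
    rw [e]
    exact loc_smul_ch _ _ _ _ ha

theorem deriv_eq_pd (k : Option (Fin s)) (m : ℕ) (q : Fin (n + s) → ℂ) (z : ℂ)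
    (hq : (q, z) ∈ Om S₀ k k m) :
    deriv (ret (S₀.co (xp q)) (mp (bp q)) k m) z = LAM.pd (Hm S₀ k k m) (q, z) := by
  rw [← LAM.pd_eq (Om_open S₀ k k m) (Hm_diff S₀ k k m) q z hq]
  rfl

/-- uniform contraction near a marked attracting periodic point -/
theorem local_contr (k : Option (Fin s)) (p : ℕ) (q : Fin (n + s) → ℂ)
    (hq : xp q ∈ S₀.U) (hc : cr (Gm S₀ k p (q, 0)) (ch (mp (bp q)) k () 0) = 0)
    (hm : ‖deriv (ret (S₀.co (xp q)) (mp (bp q)) k p) 0‖ < 1) :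
    ∃ (r c : ℝ), 0 < r ∧ 0 ≤ c ∧ c < 1 ∧ ∀ᶠ q' in 𝓝 q,
      cr (Gm S₀ k p (q', 0)) (ch (mp (bp q')) k () 0) = 0 →
      ∀ z : ℂ, ‖z‖ < r → ∃ a z' : ℂ, a ≠ 0 ∧ ‖z'‖ ≤ c * ‖z‖ ∧
        (hF (S₀.co (xp q')))^[p] (ch (mp (bp q')) k () z) = a • ch (mp (bp q')) k () z' := by
  have h0 : (q, (0 : ℂ)) ∈ Om S₀ k k p := (mem_Om S₀ k k p (q, 0) hq hc).1
  have hO := (Om_open S₀ k k p).mem_nhds h0
  rw [deriv_eq_pd S₀ k p q 0 h0] at hm
  obtain ⟨c, hc1, hc2⟩ := exists_between hm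
  have hcont : ContinuousAt (fun w => ‖LAM.pd (Hm S₀ k k p) w‖) (q, (0 : ℂ)) :=
    ((LAM.pd_diff (Om_open S₀ k k p) (Hm_diff S₀ k k p)).continuousOn.continuousAt hO).norm
  have hev : ∀ᶠ w in 𝓝 (q, (0 : ℂ)), w ∈ Om S₀ k k p ∧ ‖LAM.pd (Hm S₀ k k p) w‖ < c :=
    (Filter.Eventually.and hO (hcont.eventually (gt_mem_nhds hc1)))
  rw [nhds_prod_eq] at hev
  obtain ⟨pa, ha, pb, hb, hab⟩ := Filter.eventually_prod_iff.1 hev
  obtain ⟨r, hr, hball⟩ := Metric.eventually_nhds_iff_ball.1 hb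
  refine ⟨r, c, hr, (norm_nonneg _).trans hc1.le, hc2, ?_⟩
  filter_upwards [ha] with q' hq' hcyc z hz
  have hin : ∀ w ∈ ball (0 : ℂ) r, (q', w) ∈ Om S₀ k k p ∧ ‖LAM.pd (Hm S₀ k k p) (q', w)‖ < c :=
    fun w hw => hab hq' (hball w hw)
  have hzero : Hm S₀ k k p (q', 0) = 0 :=
    (mem_Om S₀ k k p (q', 0) (hin 0 (mem_ball_self hr)).1.1 hcyc).2
  have hz0 : z ∈ ball (0 : ℂ) r := by simpa using hz
  have hd : ∀ w ∈ ball (0 : ℂ) r, DifferentiableAt ℂ (fun w : ℂ => Hm S₀ k k p (q', w)) w := by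
    intro w hw
    have h1 : DifferentiableAt ℂ (Hm S₀ k k p) (q', w) :=
      (Hm_diff S₀ k k p).differentiableAt ((Om_open S₀ k k p).mem_nhds (hin w hw).1)
    exact h1.comp w ((differentiableAt_const q').prodMk differentiableAt_id)
  have hle := Convex.norm_image_sub_le_of_norm_deriv_le (𝕜 := ℂ)
    (f := fun w : ℂ => Hm S₀ k k p (q', w)) (s := ball (0 : ℂ) r) (C := c) hd (by
      intro w hw
      rw [LAM.pd_eq (Om_open S₀ k k p) (Hm_diff S₀ k k p) q' w (hin w hw).1]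
      exact (hin w hw).2.le) (convex_ball _ _) (mem_ball_self hr) hz0
  rw [hzero, sub_zero, sub_zero] at hle
  refine ⟨den k (Gm S₀ k p (q', z)), Hm S₀ k k p (q', z), (hin z hz0).1.2, hle, ?_⟩
  exact eq_den_smul (mp (bp q')) k () (Gm S₀ k p (q', z)) (hin z hz0).1.2

end local_

/-- the marked points of a configuration are not close to infinity -/
theorem bp_le {d n s : ℕ} (S₀ : BS d n) (per : Option (Fin s) → ℕ) (hper : ∀ k, 1 ≤ per k)
    (q : Fin (n + s) → ℂ) (hq : Mk S₀ (xp q) s per (bp q)) (k : Fin s) :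
    ‖bp q k‖ ≤ 1 / S₀.r₀ := by
  by_contra hcon
  rw [not_le] at hcon
  have hr₀ := S₀.hr₀
  have hb : 0 < ‖bp q k‖ := lt_trans (by positivity) hcon
  have hb0 : bp q k ≠ 0 := norm_pos_iff.1 hb
  have hz : ‖(bp q k)⁻¹‖ < S₀.r₀ := by
    rw [norm_inv, inv_lt_comm₀ hb hr₀]
    rwa [one_div] at hcon
  have hc : ∀ z : ℂ, ‖z‖ < S₀.r₀ → ∃ a z' : ℂ, a ≠ 0 ∧ ‖z'‖ ≤ S₀.θ * ‖z‖ ∧
      (hF (S₀.co (xp q)))^[S₀.per none] (ch (mp (bp q)) none () z) =
        a • ch (mp (bp q)) none () z' := by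
    intro z hz
    exact S₀.contr (xp q) hq.xU none z hz
  have h1 : ((bp q k)⁻¹ : ℂ) = 0 := by
    refine no_per (S₀.co (xp q)) (mp (bp q)) none (S₀.per none) S₀.r₀ S₀.θ S₀.hθ0 S₀.hθ hc
      (per (some k)) (by have := hper (some k); omega) _ hz ?_
    have h2 := cyc_iter (S₀.co (xp q)) (S₀.nd _ hq.xU) (per (some k)) (S₀.per none)
      (ch (mp (bp q)) (some k) () 0) (ch_ne_zero _ _ _ _) (hq.cyc (some k))
    have e : ch (mp (bp q)) (some k) () 0 = bp q k • ch (mp (bp q)) none () (bp q k)⁻¹ := by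
      ext
      · simp [ch, mp]
      · simp [ch, hb0]
    rw [e, hF_iter_smul, cr_smul_left, cr_smul_right, mul_comm (per (some k))] at h2
    exact ((mul_eq_zero.1 ((mul_eq_zero.1 h2).resolve_left (pow_ne_zero _ hb0))).resolve_left hb0)
  exact (inv_ne_zero hb0) h1

/-- Task RQ-DCL. -/
theorem task : StDCL := by
  intro d n S₀ ρb s per v hρb hper hv
  apply isCompact_of_isClosed_isBounded
  · -- closed
    refine isClosed_of_closure_subset fun q hq => ?_
    have hfr := mem_closure_iff_frequently.1 hq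
    have hball : xp q ∈ closedBall S₀.xT ρb := by
      have hcl : IsClosed {q' : Fin (n + s) → ℂ | xp q' ∈ closedBall S₀.xT ρb} :=
        isClosed_closedBall.preimage xp_diff.continuous
      exact hcl.closure_subset (closure_mono (fun q' h => h.1) hq)
    have hxU : xp q ∈ S₀.U := closedBall_subset_ball hρb hball
    obtain ⟨q₁, hq₁⟩ := hfr.exists
    have hpn := hq₁.2.1.pn
    have hin : ContinuousAt (fun q' : Fin (n + s) → ℂ => (q', (0 : ℂ))) q :=
      (continuous_id.prodMk continuous_const).continuousAt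
    have hGc : ∀ k m, ContinuousAt (fun q' : Fin (n + s) → ℂ => Gm S₀ k m (q', 0)) q := by
      intro k m
      have h1 : ContinuousAt (Gm S₀ k m) (q, (0 : ℂ)) :=
        (Gm_diff S₀ k m).continuousOn.continuousAt ((U_open S₀).mem_nhds hxU)
      exact ContinuousAt.comp (f := fun q' : Fin (n + s) → ℂ => (q', (0 : ℂ))) h1 hin
    have hchc : ∀ k : Option (Fin s),
        Continuous (fun q' : Fin (n + s) → ℂ => ch (mp (bp q')) k () 0) := by
      intro k
      cases k with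
      | none => exact continuous_const
      | some k => exact ((bp_diff k).continuous.add continuous_const).prodMk continuous_const
    have hcyc : ∀ k, cr (Gm S₀ k (per k) (q, 0)) (ch (mp (bp q)) k () 0) = 0 := by
      intro k
      have hcont : ContinuousAt (fun q' : Fin (n + s) → ℂ =>
          cr (Gm S₀ k (per k) (q', 0)) (ch (mp (bp q')) k () 0)) q := by
        unfold cr
        exact ((hGc k _).fst.mul (hchc k).continuousAt.snd).sub
          ((hGc k _).snd.mul (hchc k).continuousAt.fst)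
      exact tendsto_nhds_unique_of_frequently_eq hcont.tendsto tendsto_const_nhds
        (hfr.mono fun q' h => h.2.1.cyc k)
    have hmul : ∀ k, deriv (ret (S₀.co (xp q)) (mp (bp q)) k (per k)) 0 = v k := by
      intro k
      have h0 : (q, (0 : ℂ)) ∈ Om S₀ k k (per k) := (mem_Om S₀ k k _ (q, 0) hxU (hcyc k)).1
      rw [deriv_eq_pd _ _ _ _ _ h0]
      have hcont : ContinuousAt (fun q' : Fin (n + s) → ℂ =>
          LAM.pd (Hm S₀ k k (per k)) (q', 0)) q := by
        have h1 : ContinuousAt (LAM.pd (Hm S₀ k k (per k))) (q, (0 : ℂ)) :=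
          (LAM.pd_diff (Om_open S₀ k k _) (Hm_diff S₀ k k _)).continuousOn.continuousAt
            ((Om_open S₀ k k _).mem_nhds h0)
        exact ContinuousAt.comp (f := fun q' : Fin (n + s) → ℂ => (q', (0 : ℂ))) h1 hin
      refine tendsto_nhds_unique_of_frequently_eq hcont.tendsto tendsto_const_nhds
        (hfr.mono fun q' h => ?_)
      rw [← deriv_eq_pd S₀ k (per k) q' 0
        (mem_Om S₀ k k (per k) (q', 0) h.2.1.xU (h.2.1.cyc k)).1]
      exact h.2.2 k
    have hdis : ∀ k k', ∀ m : ℕ, cr ((hF (S₀.co (xp q)))^[m] (ch (mp (bp q)) k () 0))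
        (ch (mp (bp q)) k' () 0) = 0 → k = k' ∧ per k ∣ m := by
      intro k k' m hcr
      obtain ⟨r, c, hr, hc0, hc1, hev⟩ := local_contr S₀ k' (per k') q hxU (hcyc k')
        (by rw [hmul]; exact hv k')
      obtain ⟨hO, hH⟩ := mem_Om S₀ k k' m (q, 0) hxU hcr
      have hcontH : ContinuousAt (fun q' : Fin (n + s) → ℂ => Hm S₀ k k' m (q', 0)) q := by
        have h1 : ContinuousAt (Hm S₀ k k' m) (q, (0 : ℂ)) :=
          (Hm_diff S₀ k k' m).continuousOn.continuousAt ((Om_open S₀ k k' m).mem_nhds hO)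
        exact ContinuousAt.comp (f := fun q' : Fin (n + s) → ℂ => (q', (0 : ℂ))) h1 hin
      have hev2 : ∀ᶠ q' in 𝓝 q, ‖Hm S₀ k k' m (q', 0)‖ < r :=
        hcontH.norm.eventually (gt_mem_nhds (by
          show ‖Hm S₀ k k' m (q, 0)‖ < r
          rw [hH, norm_zero]; exact hr))
      have hev3 : ∀ᶠ q' in 𝓝 q, (q', (0 : ℂ)) ∈ Om S₀ k k' m :=
        hin.eventually ((Om_open S₀ k k' m).mem_nhds hO)
      obtain ⟨q', hq', h1, h2, h3⟩ := (hfr.and_eventually (hev.and (hev2.and hev3))).exists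
      have hu : (hF (S₀.co (xp q')))^[m] (ch (mp (bp q')) k () 0) =
          den k' (Gm S₀ k m (q', 0)) • ch (mp (bp q')) k' () (Hm S₀ k k' m (q', 0)) :=
        eq_den_smul (mp (bp q')) k' () (Gm S₀ k m (q', 0)) h3.2
      have hden : den k' (Gm S₀ k m (q', 0)) ≠ 0 := h3.2
      have hnd := S₀.nd _ hq'.2.1.xU
      have hw : Hm S₀ k k' m (q', 0) = 0 := by
        refine no_per (S₀.co (xp q')) (mp (bp q')) k' (per k') r c hc0 hc1
          (h1 (hq'.2.1.cyc k')) (per k) (by have := hper k; omega) _ h2 ?_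
        have h4 := cyc_iter (S₀.co (xp q')) hnd (per k) (per k') (ch (mp (bp q')) k () 0)
          (ch_ne_zero _ _ _ _) (hq'.2.1.cyc k)
        have h5 := cr_iter (S₀.co (xp q')) m (hnd.iter_ne _ (ch_ne_zero _ _ _ _))
          (ch_ne_zero _ _ _ _) h4
        rw [← Function.iterate_add_apply, add_comm, Function.iterate_add_apply, hu, hF_iter_smul,
          cr_smul_left, cr_smul_right, mul_comm (per k)] at h5
        exact (mul_eq_zero.1 ((mul_eq_zero.1 h5).resolve_left (pow_ne_zero _ hden))).resolve_left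
          hden
      rw [hw] at hu
      exact hq'.2.1.dis k k' m (by rw [hu, cr_smul_left, cr_self, mul_zero])
    exact ⟨hball, ⟨hxU, hpn, fun k => hper k, hcyc, fun k => by rw [hmul]; exact hv k, hdis⟩, hmul⟩
  · -- bounded
    rw [Metric.isBounded_iff_subset_closedBall 0]
    refine ⟨max (‖S₀.xT‖ + |ρb|) (1 / S₀.r₀), fun q hq => ?_⟩
    have hnn : 0 ≤ max (‖S₀.xT‖ + |ρb|) (1 / S₀.r₀) := le_max_of_le_left (by positivity)
    rw [mem_closedBall_zero_iff, pi_norm_le_iff_of_nonneg hnn]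
    intro i
    refine Fin.addCases (fun i => ?_) (fun k => ?_) i
    · refine le_max_of_le_left ?_
      have h1 : ‖q (Fin.castAdd s i)‖ ≤ ‖xp q‖ := norm_le_pi_norm (xp q) i
      have h2 : ‖xp q - S₀.xT‖ ≤ ρb := by simpa [dist_eq_norm] using hq.1
      have h3 : ‖xp q‖ ≤ ‖xp q - S₀.xT‖ + ‖S₀.xT‖ := by
        have := norm_add_le (xp q - S₀.xT) S₀.xT
        simpa using this
      have h4 := le_abs_self ρb
      linarith
    · exact le_max_of_le_right (bp_le S₀ per hper q hq.2.1 k)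

end Pool.Agent.W305.RQDCL

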